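import Pool.Agent.helper93.VN.SpecL

/-! # Row vn:LSL (project VN): cone, growth and slopes for the Jacobi equation -/

set_option autoImplicit false

namespace Pool.Agent.VN

/-- comparison with an integrating factor -/
theorem LSL_cmp (f f' lam : ℝ → ℝ) (s : ℝ) (hl : Continuous lam) (hf : ∀ t, HasDerivAt f (f' t) t)
    (h : ∀ t, s ≤ t → -(lam t) * f t ≤ f' t) (h0 : 0 ≤ f s) : ∀ t, s ≤ t → 0 ≤ f t := by
  have hL : ∀ t, HasDerivAt (fun t => ∫ x in s..t, lam x) (lam t) t := fun t => (hl.integral_hasStrictDerivAt s t).hasDerivAt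
  have hg : ∀ t, HasDerivAt (fun t => Real.exp (∫ x in s..t, lam x) * f t)
      (Real.exp (∫ x in s..t, lam x) * lam t * f t + Real.exp (∫ x in s..t, lam x) * f' t) t :=
    fun t => ((hL t).exp).mul (hf t)
  have hm : MonotoneOn (fun t => Real.exp (∫ x in s..t, lam x) * f t) (Set.Ici s) := by
    refine monotoneOn_of_deriv_nonneg (convex_Ici s) (fun t _ => (hg t).continuousAt.continuousWithinAt)
      (fun t _ => (hg t).differentiableAt.differentiableWithinAt) ?_
    intro t ht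
    rw [interior_Ici] at ht
    rw [(hg t).deriv]
    have h1 := h t (le_of_lt ht)
    have h2 : 0 < Real.exp (∫ x in s..t, lam x) := Real.exp_pos _
    have h3 : Real.exp (∫ x in s..t, lam x) * lam t * f t + Real.exp (∫ x in s..t, lam x) * f' t =
        Real.exp (∫ x in s..t, lam x) * (lam t * f t + f' t) := by ring
    rw [h3]
    exact mul_nonneg h2.le (by linarith)
  intro t ht
  have h1 := hm (Set.mem_Ici.2 le_rfl) (Set.mem_Ici.2 ht) ht
  simp only [intervalIntegral.integral_same, Real.exp_zero, one_mul] at h1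
  have h2 : 0 ≤ Real.exp (∫ x in s..t, lam x) * f t := h0.trans h1
  exact (mul_nonneg_iff_of_pos_left (Real.exp_pos _)).1 h2

theorem LSL_pos1 (J : ℝ → ℝ) (hJ : Continuous J) (h0 : 0 < J 0) (h : ∀ t, 0 ≤ t → J t ≠ 0) : ∀ t, 0 ≤ t → 0 < J t := by
  intro t ht
  by_contra hcon
  push Not at hcon
  obtain ⟨x, hx, hx2⟩ := intermediate_value_Icc' ht hJ.continuousOn (Set.mem_Icc.2 ⟨hcon, h0.le⟩)
  exact h x hx.1 hx2

theorem LSL_pos (a q J W : ℝ → ℝ) (ha : ∀ t, 0 ≤ t → 0 ≤ a t ∧ 0 ≤ q t)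
    (hJ : ∀ t, HasDerivAt J (a t * W t) t) (hW : ∀ t, HasDerivAt W (q t * J t) t) (hJ0 : 0 < J 0) (hW0 : 0 < W 0) :
    ∀ t, 0 ≤ t → 0 < J t ∧ 0 < W t := by
  have hm : MonotoneOn (fun t => J t * W t) (Set.Ici 0) := by
    refine monotoneOn_of_deriv_nonneg (convex_Ici 0) (fun t _ => ((hJ t).mul (hW t)).continuousAt.continuousWithinAt)
      (fun t _ => ((hJ t).mul (hW t)).differentiableAt.differentiableWithinAt) ?_
    intro t ht
    rw [interior_Ici] at ht
    have h1 := ((hJ t).mul (hW t)).deriv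
    have h2 : deriv (fun t => J t * W t) t = a t * W t * W t + J t * (q t * J t) := h1
    rw [h2]
    obtain ⟨h3, h4⟩ := ha t (le_of_lt ht)
    have h5 : a t * W t * W t + J t * (q t * J t) = a t * (W t) ^ 2 + q t * (J t) ^ 2 := by ring
    rw [h5]
    positivity
  have hp : ∀ t, 0 ≤ t → 0 < J t * W t := fun t ht =>
    lt_of_lt_of_le (mul_pos hJ0 hW0) (hm (Set.mem_Ici.2 le_rfl) (Set.mem_Ici.2 ht) ht)
  have hJc : Continuous J := continuous_iff_continuousAt.2 fun t => (hJ t).continuousAt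
  have hWc : Continuous W := continuous_iff_continuousAt.2 fun t => (hW t).continuousAt
  intro t ht
  refine ⟨LSL_pos1 J hJc hJ0 (fun t ht h => ?_) t ht, LSL_pos1 W hWc hW0 (fun t ht h => ?_) t ht⟩
  · have := hp t ht
    rw [h, zero_mul] at this
    exact lt_irrefl _ this
  · have := hp t ht
    rw [h, mul_zero] at this
    exact lt_irrefl _ this

theorem LSL_e (κ t : ℝ) : HasDerivAt (fun t : ℝ => Real.exp (-(κ * t))) (-κ * Real.exp (-(κ * t))) t := by
  have h1 : HasDerivAt (fun t : ℝ => -(κ * t)) (-κ) t := by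
    have h0 : HasDerivAt (fun t : ℝ => κ * t) κ t := by simpa using (hasDerivAt_id t).const_mul κ
    exact h0.fun_neg
  have h2 := h1.exp
  rw [mul_comm]
  exact h2

theorem LSL_exp3 (t : ℝ) (ht : 1 ≤ t) : Real.exp (-t) ≤ 2 / 5 := by
  have h1 : Real.exp (-t) ≤ Real.exp (-1) := Real.exp_le_exp.2 (by linarith)
  have h2 : Real.exp (-1) ≤ 2 / 5 := by
    have h3 := Real.exp_one_gt_d9
    rw [Real.exp_neg, inv_le_comm₀ (Real.exp_pos _) (by norm_num)]
    linarith
  exact h1.trans h2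

theorem LSL_low (C a q E : ℝ) (hC : 1 ≤ C) (ha : a ≤ C) (hq : 1 / C ≤ q) (hE0 : 0 ≤ E) (hE1 : E ≤ 1) :
    0 ≤ q - 1 / C * (2 / 3 * E) - a * (1 / C * (1 - 2 / 3 * E)) ^ 2 := by
  have hC0 : 0 < C := by linarith
  have h1 : a * (1 / C * (1 - 2 / 3 * E)) ^ 2 ≤ C * (1 / C * (1 - 2 / 3 * E)) ^ 2 :=
    mul_le_mul_of_nonneg_right ha (sq_nonneg _)
  have h2 : C * (1 / C * (1 - 2 / 3 * E)) ^ 2 = 1 / C * (1 - 2 / 3 * E) ^ 2 := by
    field_simp
  have h3 : 0 < 1 / C := by positivity
  have h4 : 0 ≤ 1 / C * (1 - 2 / 3 * E - (1 - 2 / 3 * E) ^ 2) := mul_nonneg h3.le (by nlinarith)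
  nlinarith

theorem LSL_upp (C a q E : ℝ) (hC : 1 ≤ C) (ha : 1 / C ≤ a) (hq : q ≤ C) (hE0 : 0 ≤ E) :
    0 ≤ -(2 * C * E) + a * (C * (1 + 2 * E)) ^ 2 - q := by
  have hC0 : 0 < C := by linarith
  have h1 : 1 / C * (C * (1 + 2 * E)) ^ 2 ≤ a * (C * (1 + 2 * E)) ^ 2 :=
    mul_le_mul_of_nonneg_right ha (sq_nonneg _)
  have h2 : 1 / C * (C * (1 + 2 * E)) ^ 2 = C * (1 + 2 * E) ^ 2 := by
    field_simp
  have h3 : 0 ≤ C * ((1 + 2 * E) ^ 2 - 1 - 2 * E) := mul_nonneg hC0.le (by nlinarith)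
  nlinarith

theorem LSL_proof : LSL_stmt := by
  intro C a q p J W S hC hac hqc hpc hco hder hJ0 hJW0 hWJ0 hS0
  have hC0 : 0 < C := by linarith
  have hW0 : 0 < W 0 := by
    by_contra hcon
    push Not at hcon
    have : 3 * C * W 0 ≤ 0 := mul_nonpos_of_nonneg_of_nonpos (by positivity) hcon
    linarith
  have hi : 0 < 1 / C := by positivity
  have hpos := LSL_pos a q J W (fun t ht => by
    obtain ⟨h1, -, h2, -, -⟩ := hco t ht
    exact ⟨hi.le.trans h1, hi.le.trans h2⟩) (fun t => (hder t).1) (fun t => (hder t).2.1) hJ0 hW0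
  have hE : ∀ t, 0 ≤ t → 0 ≤ Real.exp (-(1 * t)) ∧ Real.exp (-(1 * t)) ≤ 1 := fun t ht =>
    ⟨(Real.exp_pos _).le, Real.exp_le_one_iff.2 (by linarith)⟩
  -- lower barrier
  have hlow : ∀ t, 0 ≤ t → 0 ≤ W t - 1 / C * (1 - 2 / 3 * Real.exp (-(1 * t))) * J t := by
    refine LSL_cmp (fun t => W t - 1 / C * (1 - 2 / 3 * Real.exp (-(1 * t))) * J t)
      (fun t => q t * J t - (1 / C * (2 / 3 * Real.exp (-(1 * t))) * J t +
        1 / C * (1 - 2 / 3 * Real.exp (-(1 * t))) * (a t * W t)))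
      (fun t => a t * (1 / C * (1 - 2 / 3 * Real.exp (-(1 * t))))) 0 (by fun_prop) ?_ ?_ ?_
    · intro t
      have h1 : HasDerivAt (fun t : ℝ => 1 / C * (1 - 2 / 3 * Real.exp (-(1 * t)))) (1 / C * (2 / 3 * Real.exp (-(1 * t)))) t := by
        have h2 := (((LSL_e 1 t).const_mul (2 / 3)).const_sub 1).const_mul (1 / C)
        refine h2.congr_deriv ?_
        ring
      exact (hder t).2.1.sub (h1.mul (hder t).1)
    · intro t ht
      obtain ⟨h1, h2, h3, h4, -⟩ := hco t ht
      have h5 := LSL_low C (a t) (q t) (Real.exp (-(1 * t))) hC h2 h3 (hE t ht).1 (hE t ht).2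
      have h6 := mul_nonneg h5 (hpos t ht).1.le
      nlinarith
    · have h1 : (1 : ℝ) / C * (1 - 2 / 3 * Real.exp (-(1 * 0))) * J 0 = J 0 / (3 * C) := by
        simp only [mul_zero, neg_zero, Real.exp_zero]
        field_simp
        ring
      show 0 ≤ W 0 - 1 / C * (1 - 2 / 3 * Real.exp (-(1 * 0))) * J 0
      rw [h1, sub_nonneg, div_le_iff₀ (by positivity)]
      linarith
  -- upper barrier
  have hupp : ∀ t, 0 ≤ t → 0 ≤ C * (1 + 2 * Real.exp (-(1 * t))) * J t - W t := by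
    refine LSL_cmp (fun t => C * (1 + 2 * Real.exp (-(1 * t))) * J t - W t)
      (fun t => -(2 * C * Real.exp (-(1 * t))) * J t + C * (1 + 2 * Real.exp (-(1 * t))) * (a t * W t) - q t * J t)
      (fun t => a t * (C * (1 + 2 * Real.exp (-(1 * t))))) 0 (by fun_prop) ?_ ?_ ?_
    · intro t
      have h1 : HasDerivAt (fun t : ℝ => C * (1 + 2 * Real.exp (-(1 * t)))) (-(2 * C * Real.exp (-(1 * t)))) t := by
        have h2 := (((LSL_e 1 t).const_mul 2).const_add 1).const_mul C
        refine h2.congr_deriv ?_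
        ring
      exact (h1.mul (hder t).1).sub (hder t).2.1
    · intro t ht
      obtain ⟨h1, h2, h3, h4, -⟩ := hco t ht
      have h5 := LSL_upp C (a t) (q t) (Real.exp (-(1 * t))) hC h1 h4 (hE t ht).1
      have h6 := mul_nonneg h5 (hpos t ht).1.le
      nlinarith
    · show 0 ≤ C * (1 + 2 * Real.exp (-(1 * 0))) * J 0 - W 0
      simp only [mul_zero, neg_zero, Real.exp_zero]
      linarith
  have hJW : ∀ t, 0 ≤ t → J t ≤ 3 * C * W t := by
    intro t ht
    have h1 := hlow t ht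
    obtain ⟨h2, h3⟩ := hE t ht
    have h4 : 1 / C * (1 / 3) * J t ≤ 1 / C * (1 - 2 / 3 * Real.exp (-(1 * t))) * J t := by
      have := (hpos t ht).1
      gcongr
      linarith
    have h5 : 1 / C * (1 / 3) * J t ≤ W t := by linarith
    have h6 : 1 / C * (1 / 3) * J t = J t / (3 * C) := by field_simp
    rw [h6, div_le_iff₀ (by positivity)] at h5
    linarith
  have hWJ : ∀ t, 0 ≤ t → W t ≤ 3 * C * J t := by
    intro t ht
    have h1 := hupp t ht
    obtain ⟨h2, h3⟩ := hE t ht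
    have h4 : C * (1 + 2 * Real.exp (-(1 * t))) * J t ≤ C * (1 + 2 * 1) * J t := by
      have := (hpos t ht).1
      gcongr
    linarith
  -- the slope of S
  obtain ⟨m, hm⟩ : ∃ m : ℝ, m = 1 / (3 * C ^ 2) := ⟨_, rfl⟩
  have hm0 : 0 < m := by rw [hm]; positivity
  have hmC : 3 * C ^ 3 * m = C := by rw [hm]; field_simp
  have haW : ∀ t, 0 ≤ t → m * J t ≤ a t * W t := by
    intro t ht
    obtain ⟨h1, -⟩ := hco t ht
    have h2 := hJW t ht
    have h3 : m * J t ≤ 1 / C * W t := by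
      rw [hm]
      have h4 : 1 / (3 * C ^ 2) * J t ≤ 1 / (3 * C ^ 2) * (3 * C * W t) := mul_le_mul_of_nonneg_left h2 (by positivity)
      have h5 : 1 / (3 * C ^ 2) * (3 * C * W t) = 1 / C * W t := by field_simp
      linarith
    exact h3.trans (mul_le_mul_of_nonneg_right h1 (hpos t ht).2.le)
  have hSb : ∀ σ : ℝ, |σ| = 1 → ∀ t, 0 ≤ t → 0 ≤ (3 * C ^ 3 + 15 * C ^ 3 * Real.exp (-(m * t))) * J t - σ * S t := by
    intro σ hσ
    refine LSL_cmp (fun t => (3 * C ^ 3 + 15 * C ^ 3 * Real.exp (-(m * t))) * J t - σ * S t)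
      (fun t => -(15 * C ^ 3 * m * Real.exp (-(m * t))) * J t + (3 * C ^ 3 + 15 * C ^ 3 * Real.exp (-(m * t))) * (a t * W t) -
        σ * (p t * J t)) (fun _ => 0) 0 continuous_const ?_ ?_ ?_
    · intro t
      have h1 : HasDerivAt (fun t : ℝ => 3 * C ^ 3 + 15 * C ^ 3 * Real.exp (-(m * t))) (-(15 * C ^ 3 * m * Real.exp (-(m * t)))) t := by
        have h2 := ((LSL_e m t).const_mul (15 * C ^ 3)).const_add (3 * C ^ 3)
        refine h2.congr_deriv ?_
        ring
      exact (h1.mul (hder t).1).sub ((hder t).2.2.const_mul σ)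
    · intro t ht
      obtain ⟨-, -, -, -, h1⟩ := hco t ht
      have hJt := (hpos t ht).1
      have h2 : σ * (p t * J t) ≤ C * J t := by
        calc σ * (p t * J t) ≤ |σ * (p t * J t)| := le_abs_self _
          _ = |p t| * J t := by rw [abs_mul, abs_mul, hσ, one_mul, abs_of_pos hJt]
          _ ≤ C * J t := mul_le_mul_of_nonneg_right h1 hJt.le
      have h3 : 0 < Real.exp (-(m * t)) := Real.exp_pos _
      have h4 : (3 * C ^ 3 + 15 * C ^ 3 * Real.exp (-(m * t))) * (m * J t) ≤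
          (3 * C ^ 3 + 15 * C ^ 3 * Real.exp (-(m * t))) * (a t * W t) :=
        mul_le_mul_of_nonneg_left (haW t ht) (by positivity)
      have h5 : (3 * C ^ 3 + 15 * C ^ 3 * Real.exp (-(m * t))) * (m * J t) =
          3 * C ^ 3 * m * J t + 15 * C ^ 3 * m * Real.exp (-(m * t)) * J t := by ring
      rw [h5, hmC] at h4
      linarith
    · show 0 ≤ (3 * C ^ 3 + 15 * C ^ 3 * Real.exp (-(m * 0))) * J 0 - σ * S 0
      simp only [mul_zero, neg_zero, Real.exp_zero]
      have h1 : σ * S 0 ≤ |S 0| := by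
        calc σ * S 0 ≤ |σ * S 0| := le_abs_self _
          _ = |S 0| := by rw [abs_mul, hσ, one_mul]
      linarith
  have hSabs : ∀ t, 0 ≤ t → |S t| ≤ (3 * C ^ 3 + 15 * C ^ 3 * Real.exp (-(m * t))) * J t := by
    intro t ht
    rw [abs_le]
    have h1 := hSb 1 (by norm_num) t ht
    have h2 := hSb (-1) (by norm_num) t ht
    constructor <;> linarith
  intro t ht
  obtain ⟨hJt, hWt⟩ := hpos t ht
  refine ⟨hJt, hJW t ht, hWJ t ht, ?_, ?_, ?_⟩
  · refine (hSabs t ht).trans ?_
    have h1 : Real.exp (-(m * t)) ≤ 1 := Real.exp_le_one_iff.2 (by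
      have := mul_nonneg hm0.le ht
      linarith)
    have h2 : (3 * C ^ 3 + 15 * C ^ 3 * Real.exp (-(m * t))) * J t ≤ (3 * C ^ 3 + 15 * C ^ 3 * 1) * J t := by gcongr
    linarith
  · intro s hs hst
    constructor
    · have h1 := LSL_cmp (fun r => J r - Real.exp ((r - s) / (3 * C ^ 2)) * J s)
        (fun r => a r * W r - Real.exp ((r - s) / (3 * C ^ 2)) * (1 / (3 * C ^ 2)) * J s) (fun _ => -m) s continuous_const
        (by
          intro r
          have h2 : HasDerivAt (fun r : ℝ => (r - s) / (3 * C ^ 2)) (1 / (3 * C ^ 2)) r :=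
            ((hasDerivAt_id r).sub_const s).div_const _
          exact (hder r).1.sub ((h2.exp).mul_const (J s)))
        (by
          intro r hr
          have h2 := haW r (hs.trans hr)
          rw [← hm]
          linarith)
        (by
          show 0 ≤ J s - Real.exp ((s - s) / (3 * C ^ 2)) * J s
          simp) t hst
      linarith
    · have h1 := LSL_cmp (fun r => Real.exp (3 * C ^ 2 * (r - s)) * J s - J r)
        (fun r => Real.exp (3 * C ^ 2 * (r - s)) * (3 * C ^ 2) * J s - a r * W r) (fun _ => -(3 * C ^ 2)) s continuous_const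
        (by
          intro r
          have h2 : HasDerivAt (fun r : ℝ => 3 * C ^ 2 * (r - s)) (3 * C ^ 2) r := by
            have := ((hasDerivAt_id r).sub_const s).const_mul (3 * C ^ 2)
            simpa using this
          exact ((h2.exp).mul_const (J s)).sub (hder r).1)
        (by
          intro r hr
          obtain ⟨-, h2, -⟩ := hco r (hs.trans hr)
          have h3 := hWJ r (hs.trans hr)
          have h4 : a r * W r ≤ C * (3 * C * J r) :=
            mul_le_mul h2 h3 (hpos r (hs.trans hr)).2.le hC0.le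
          nlinarith)
        (by
          show 0 ≤ Real.exp (3 * C ^ 2 * (s - s)) * J s - J s
          simp) t hst
      linarith
  · intro h3
    have hC2 : 1 ≤ C ^ 2 := by nlinarith
    have ht1 : 1 ≤ t := by linarith
    have hmt : 1 ≤ m * t := by
      rw [hm, one_div, inv_mul_eq_div, le_div_iff₀ (by positivity)]
      linarith
    have h4 : Real.exp (-(1 * t)) ≤ 2 / 5 := by rw [one_mul]; exact LSL_exp3 t ht1
    have h5 : Real.exp (-(m * t)) ≤ 2 / 5 := LSL_exp3 _ hmt
    refine ⟨?_, ?_, ?_⟩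
    · have h6 := hlow t ht
      have h7 : 1 / C * (2 / 3) * J t ≤ 1 / C * (1 - 2 / 3 * Real.exp (-(1 * t))) * J t := by
        gcongr
        linarith
      have h8 : 1 / C * (2 / 3) * J t ≤ W t := by linarith
      have h9 : 1 / C * (2 / 3) * J t = J t / (3 / 2 * C) := by field_simp
      rw [h9, div_le_iff₀ (by positivity)] at h8
      linarith
    · have h6 := hupp t ht
      have h10 : (1 : ℝ) ≤ t := ht1
      have h11 : Real.exp (-(1 * t)) ≤ 1 / 4 := by
        have h12 : 2 ≤ t := by linarith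
        have h13 : Real.exp (-(1 * t)) ≤ Real.exp (-1) * Real.exp (-1) := by
          rw [← Real.exp_add]
          exact Real.exp_le_exp.2 (by linarith)
        have h14 := LSL_exp3 1 le_rfl
        have h15 : 0 < Real.exp (-1) := Real.exp_pos _
        nlinarith
      have h7 : C * (1 + 2 * Real.exp (-(1 * t))) * J t ≤ C * (1 + 2 * (1 / 4)) * J t := by gcongr
      linarith
    · refine (hSabs t ht).trans ?_
      have h6 : (3 * C ^ 3 + 15 * C ^ 3 * Real.exp (-(m * t))) * J t ≤ (3 * C ^ 3 + 15 * C ^ 3 * (2 / 5)) * J t := by gcongr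
      linarith

end Pool.Agent.VN
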